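import Mathlib
import Pool.Agent.Q267.DV.PellR

/-!
# NSW numbers with a real parameter: infinitely many prime integer parts

For real `y > 0` let `W y n = ((y + √(y² + 1)) ^ n + (y - √(y² + 1)) ^ n) / 2`; for `y = 1` and odd `n` these are
the NSW numbers.  For every positive `C ^ 2` function `A` on `(0, ∞)`, every set `S` of indices with divergent
sum of `1 / n` (for example the odd primes) and almost every `y > 0` the integer part of `A y * W y n` is
prime for infinitely many `n ∈ S`.  If the sum converges, then for almost every `y > 0` it is prime for only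
finitely many `n ∈ S`.
-/

set_option autoImplicit false

namespace Pool.Agent.Results.MP_eaa2ff_nt.EveryDivergentIndexSet

open MeasureTheory

/-- The NSW numbers with a real parameter. -/
noncomputable def W (y : ℝ) (n : ℕ) : ℝ :=
  ((y + Real.sqrt (y ^ 2 + 1)) ^ n + (y - Real.sqrt (y ^ 2 + 1)) ^ n) / 2

lemma W_eq (y : ℝ) (n : ℕ) : Pool.Agent.W66C.lV (2 * y) n / 2 = W y n := by
  have hs : Real.sqrt (y ^ 2 + 1) ^ 2 = y ^ 2 + 1 := Real.sq_sqrt (by positivity)
  unfold W
  set w := Real.sqrt (y ^ 2 + 1) with hw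
  have h : Pool.Agent.W66C.lV (2 * y) n = (y + w) ^ n + (y - w) ^ n := by
    induction n using Nat.twoStepInduction with
    | zero =>
      show (2 : ℝ) = _
      norm_num
    | one =>
      show 2 * y = _
      ring
    | more n h1 h2 =>
      show 2 * y * Pool.Agent.W66C.lV (2 * y) (n + 1) + Pool.Agent.W66C.lV (2 * y) n = _
      rw [h1, h2]
      have e1 : (y + w) ^ (n + 2) = 2 * y * (y + w) ^ (n + 1) + (y + w) ^ n := by
        rw [pow_succ, pow_succ]
        linear_combination (y + w) ^ n * hs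
      have e2 : (y - w) ^ (n + 2) = 2 * y * (y - w) ^ (n + 1) + (y - w) ^ n := by
        rw [pow_succ, pow_succ]
        linear_combination (y - w) ^ n * hs
      rw [e1, e2]
      ring
  rw [h]

/-- The dichotomy: infinitely many prime values for almost every `y` if and only if the sum of `1 / n` over
the index set diverges. -/
theorem result :
    (∀ A : ℝ → ℝ, ContDiffOn ℝ 2 A (Set.Ioi 0) → (∀ y, 0 < y → 0 < A y) →
      ∀ S : Set ℕ, (¬ Summable fun n : S => 1 / ((n : ℕ) : ℝ)) →
        ∀ᵐ y : ℝ, 0 < y → {n : ℕ | n ∈ S ∧ (⌊A y * W y n⌋₊).Prime}.Infinite) ∧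
    (∀ A : ℝ → ℝ, ContDiffOn ℝ 2 A (Set.Ioi 0) → (∀ y, 0 < y → 0 < A y) →
      ∀ S : Set ℕ, (Summable fun n : S => 1 / ((n : ℕ) : ℝ)) →
        ∀ᵐ y : ℝ, 0 < y → {n : ℕ | n ∈ S ∧ (⌊A y * W y n⌋₊).Prime}.Finite) := by
  have e : ∀ (A : ℝ → ℝ) (y : ℝ) (n : ℕ), A y / 2 * Pool.Agent.W66C.lV (2 * y) n = A y * W y n := by
    intro A y n
    rw [← W_eq]
    ring
  refine ⟨fun A hA hA0 S hS => ?_, fun A hA hA0 S hS => ?_⟩
  · have h := (Pool.Agent.Q267.DV.pellV (hA.div_const 2) (fun y hy => half_pos (hA0 y hy)) S).1 hS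
    simp only [e] at h
    exact h
  · have h := (Pool.Agent.Q267.DV.pellV (hA.div_const 2) (fun y hy => half_pos (hA0 y hy)) S).2 hS
    simp only [e] at h
    exact h

end Pool.Agent.Results.MP_eaa2ff_nt.EveryDivergentIndexSet
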