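import Mathlib
import Pool.Agent.Q267.DV.Rep
import Pool.Agent.Q267.DV.PellR

/-!
# NSW numbers with a real parameter: repulsion of the prime indices

For real `y > 0` let `W y n = ((y + √(y² + 1)) ^ n + (y - √(y² + 1)) ^ n) / 2`; for `y = 1` and odd `n` these are
the NSW numbers.  Let `A` be a positive `C ^ 2` function on `(0, ∞)`.  For every set `R` of pairs `m < n` with
finite sum of `1 / (m n)` and almost every `y > 0` the integer parts of `A y * W y m` and `A y * W y n` are both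
prime for only finitely many pairs `(m, n)` in `R`.  Hence, for every `f ≥ 0` with finite sum of `f m / m ^ 2` (for
example `f m = m / (log m) ^ (1 + ε)`) and almost every `y > 0`, any two large indices `m < n` with prime integer
parts satisfy `n > m + f m`.
-/

set_option autoImplicit false

namespace Pool.Agent.Results.MP_eaa2ff_nt.RepulsionOfIndices

open MeasureTheory

/-- The NSW numbers with a real parameter. -/
noncomputable def W (y : ℝ) (n : ℕ) : ℝ :=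
  ((y + Real.sqrt (y ^ 2 + 1)) ^ n + (y - Real.sqrt (y ^ 2 + 1)) ^ n) / 2

lemma W_eq (y : ℝ) (n : ℕ) : Pool.Agent.W66C.lV (2 * y) n / 2 = W y n := by
  have hs : Real.sqrt (y ^ 2 + 1) ^ 2 = y ^ 2 + 1 := Real.sq_sqrt (by positivity)
  unfold W
  set w := Real.sqrt (y ^ 2 + 1) with hw
  have h : Pool.Agent.W66C.lV (2 * y) n = (y + w) ^ n + (y - w) ^ n := by
    induction n using Nat.twoStepInduction with
    | zero =>
      show (2 : ℝ) = _
      norm_num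
    | one =>
      show 2 * y = _
      ring
    | more n h1 h2 =>
      show 2 * y * Pool.Agent.W66C.lV (2 * y) (n + 1) + Pool.Agent.W66C.lV (2 * y) n = _
      rw [h1, h2]
      have e1 : (y + w) ^ (n + 2) = 2 * y * (y + w) ^ (n + 1) + (y + w) ^ n := by
        rw [pow_succ, pow_succ]
        linear_combination (y + w) ^ n * hs
      have e2 : (y - w) ^ (n + 2) = 2 * y * (y - w) ^ (n + 1) + (y - w) ^ n := by
        rw [pow_succ, pow_succ]
        linear_combination (y - w) ^ n * hs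
      rw [e1, e2]
      ring
  rw [h]

lemma pairs {A : ℝ → ℝ} (hA : ContDiffOn ℝ 2 A (Set.Ioi 0)) (hA0 : ∀ y, 0 < y → 0 < A y)
    {R : Set (ℕ × ℕ)} (hR : ∀ r ∈ R, 1 ≤ r.1 ∧ r.1 < r.2)
    (hs : Summable fun r : R => 1 / (((r : ℕ × ℕ).1 : ℝ) * ((r : ℕ × ℕ).2 : ℝ))) :
    ∀ᵐ y : ℝ, 0 < y → {r : ℕ × ℕ | r ∈ R ∧ (⌊A y * W y r.1⌋₊).Prime ∧ (⌊A y * W y r.2⌋₊).Prime}.Finite := by
  filter_upwards [Pool.Agent.Q267.DV.ae_two (Pool.Agent.Q267.DV.V_rep
    ((Pool.Agent.Q267.DV.half_diff hA).div_const 2)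
    (fun x hx => half_pos (hA0 _ (half_pos hx))) hR hs)] with y h1 hy
  have h2 := h1 (by linarith)
  have e : ∀ n : ℕ, A (2 * y / 2) / 2 * Pool.Agent.W66C.lV (2 * y) n = A y * W y n := by
    intro n
    have e0 : 2 * y / 2 = y := by ring
    rw [← W_eq, e0]
    ring
  simp only [e] at h2
  exact h2

/-- Repulsion of the prime indices. -/
theorem result :
    (∀ A : ℝ → ℝ, ContDiffOn ℝ 2 A (Set.Ioi 0) → (∀ y, 0 < y → 0 < A y) →
      ∀ R : Set (ℕ × ℕ), (∀ r ∈ R, 1 ≤ r.1 ∧ r.1 < r.2) →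
        (Summable fun r : R => 1 / (((r : ℕ × ℕ).1 : ℝ) * ((r : ℕ × ℕ).2 : ℝ))) →
        ∀ᵐ y : ℝ, 0 < y →
          {r : ℕ × ℕ | r ∈ R ∧ (⌊A y * W y r.1⌋₊).Prime ∧ (⌊A y * W y r.2⌋₊).Prime}.Finite) ∧
    (∀ A : ℝ → ℝ, ContDiffOn ℝ 2 A (Set.Ioi 0) → (∀ y, 0 < y → 0 < A y) →
      ∀ f : ℕ → ℝ, (∀ m, 0 ≤ f m) → (Summable fun m : ℕ => f m / (m : ℝ) ^ 2) →
        ∀ᵐ y : ℝ, 0 < y → ∃ M : ℕ, ∀ m n : ℕ, M ≤ m → m < n → (⌊A y * W y m⌋₊).Prime →
          (⌊A y * W y n⌋₊).Prime → (m : ℝ) + f m < n) := by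
  refine ⟨fun A hA hA0 R hR hs => pairs hA hA0 hR hs, fun A hA hA0 f hf0 hf => ?_⟩
  filter_upwards [pairs hA hA0 (R := Pool.Agent.Q267.DV.close f) (fun r hr => ⟨hr.1, hr.2.1⟩)
    (Pool.Agent.Q267.DV.close_summable hf0 hf)] with y hy h0
  exact Pool.Agent.Q267.DV.gap_of (P := fun m => (⌊A y * W y m⌋₊).Prime) (hy h0)

end Pool.Agent.Results.MP_eaa2ff_nt.RepulsionOfIndices
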